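import Mathlib

namespace Pool.Agent.MP_8fd8e7_al

/-- The commutator `(u,v) = u⁻¹ v⁻¹ u v`. -/
def gcomm {G : Type*} [Group G] (u v : G) : G := u⁻¹ * v⁻¹ * u * v

/-- The group `G` satisfies every identity `w = 1` with `w` in the set `S` of words. -/
def Satisfies (G : Type*) [Group G] (S : Set (FreeGroup ℕ)) : Prop :=
  ∀ w ∈ S, ∀ f : ℕ → G, FreeGroup.lift f w = 1

/-- The word `((x₁,x₂,x₃),(x₄,x₅,x₆))` with left-normed commutators. -/
def w0 : FreeGroup ℕ :=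
  gcomm (gcomm (gcomm (FreeGroup.of 1) (FreeGroup.of 2)) (FreeGroup.of 3))
    (gcomm (gcomm (FreeGroup.of 4) (FreeGroup.of 5)) (FreeGroup.of 6))

end Pool.Agent.MP_8fd8e7_al
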